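import Pool.Agent.Helper35.MS.StF

/-! # Project MS: module TY3 -/

set_option autoImplicit false

namespace Helper22.MS

open Helper35.MS Helper35.PI Helper35.PI2 Helper32.CL
open scoped ContDiff Manifold Topology ENNReal BigOperators
open MeasureTheory Set Filter

theorem hTY3 (hFN2 : StFN2) (hTY1 : StTY1) (hTY2 : StTY2) (hENE : StENE) (hMUJ : StMUJ) :
    StTY3 := by
  intro N M _ _ _ _ _ _ _ _ _ T F c χ δ hD hU
  obtain ⟨hsmall, harea⟩ := hFN2 N M T F c χ δ hD hU
  obtain ⟨C1, hC1, ts1, hts1, hY1⟩ := hTY1 N M T F c χ δ hD hsmall harea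
  obtain ⟨s1, hs1, he1⟩ := hsmall 1 one_pos
  have hδ := hD.pi.δ0
  set ta := max ts1 s1 with hta
  have hta' : ta ∈ Ioo 0 T := ⟨lt_max_of_lt_left hts1.1, max_lt hts1.2 hs1.2⟩
  obtain ⟨C', hC', hTY⟩ := hTY2 N M T F c χ δ hD harea C1 ta hC1 hta'
    (fun t ht => he1 t ⟨(le_max_right _ _).trans ht.1, ht.2⟩)
    (fun t ht q => hY1 t ⟨(le_max_left _ _).trans ht.1, ht.2⟩ q)
  obtain ⟨s, -, hmu⟩ := hMUJ 2 N M (Ioo 0 T) F c χ hD.su.toJ
  have hint : ∀ t ∈ Ioo 0 T, ∀ g : M → ℝ, Continuous g → Integrable g (muM 2 F c χ t) :=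
    fun t ht g hg => ((hmu t ht).2.2 g hg).1
  have hθc : ∀ t ∈ Ioo 0 T, Continuous (fun q => thF 2 F q t) :=
    fun t ht => (hD.pi.eth.sm t ht).continuous
  have e0 : ∀ t ∈ Ioo 0 T, 0 ≤ eI F c χ t := fun t ht =>
    integral_nonneg (fun q => hD.pi.th0 q t ht)
  have der : ∀ t ∈ Ioo 0 T, HasDerivAt (eI F c χ) (-dI F c χ t) t := fun t ht =>
    (hENE N M (Ioo 0 T) F c χ hD.su t ht).2.1
  have dbd : ∀ t ∈ Ioo 0 T, ∀ κ : ℝ, (∀ q, κ ≤ YF F q t) → δ * κ * eI F c χ t ≤ dI F c χ t := by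
    intro t ht κ hκ
    unfold eI dI
    rw [← integral_const_mul]
    apply integral_mono
    · exact (hint t ht _ (hθc t ht)).const_mul _
    · exact hint t ht _ (hENE N M (Ioo 0 T) F c χ hD.su t ht).1
    · intro q
      show δ * κ * thF 2 F q t ≤ g3F F q t
      refine le_trans ?_ (hD.pi.g1 q t ht)
      have h1 := mul_le_mul_of_nonneg_right (hκ q) (hD.pi.th0 q t ht)
      have h2 := mul_le_mul_of_nonneg_left h1 hδ.le
      linarith
  -- step 1
  set η₁ : ℝ := min (1 / 2) (1 / (2 * C')) with hη₁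
  have hη0 : 0 < η₁ := lt_min (by norm_num) (by positivity)
  have hη2 : η₁ ≤ 1 / 2 := min_le_left _ _
  have hηC : C' * η₁ ≤ 1 / 2 := by
    have h1 : η₁ ≤ 1 / (2 * C') := min_le_right _ _
    have h2 := mul_le_mul_of_nonneg_left h1 hC'.le
    have h3 : C' * (1 / (2 * C')) = 1 / 2 := by field_simp
    linarith
  obtain ⟨s2, hs2, he2⟩ := hsmall (η₁ ^ 16) (by positivity)
  set tb := max ta s2 with htb
  have htb' : tb ∈ Ioo 0 T := ⟨lt_max_of_lt_left hta'.1, max_lt hta'.2 hs2.2⟩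
  set t2 := (T + tb) / 2 with ht2
  have ht2' : t2 ∈ Ioo 0 T := ⟨by have := htb'.1; have := hD.T0; rw [ht2]; linarith,
    by have := htb'.2; rw [ht2]; linarith⟩
  have htb2 : tb ≤ t2 := by have := htb'.2; rw [ht2]; linarith
  have hYlow : ∀ t ∈ Ico t2 T, ∀ q, 1 / (2 * (T - t)) ≤ YF F q t := by
    intro t ht q
    have h1 : tb ≤ T - 2 * (T - t) := by have := ht.1; rw [ht2] at this; linarith
    have h2 : ta ≤ T - 2 * (T - t) := (le_max_left _ _).trans h1
    have h3 : s2 ≤ T - 2 * (T - t) := (le_max_right _ _).trans h1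
    have hTt : 0 < T - t := by have := ht.2; linarith
    have h4 := (hTY t ht.2 h2 q).2 η₁ hη0 hη2 (he2 _ ⟨h3, by linarith⟩)
    have h5 := (abs_le.1 (h4.trans hηC)).1
    rw [div_le_iff₀ (by positivity)]
    linarith
  -- step 2
  set β : ℝ := δ / 2 with hβ
  have hβ0 : 0 < β := by rw [hβ]; positivity
  have hpow : ∀ t ∈ Ico t2 T, HasDerivAt (fun t => (T - t) ^ (-β)) (β * (T - t) ^ (-β - 1)) t := by
    intro t ht
    have hTt : 0 < T - t := by have := ht.2; linarith
    have h1 : HasDerivAt (fun t : ℝ => T - t) (-1) t := by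
      simpa using (hasDerivAt_id t).const_sub T
    have h2 := h1.rpow_const (p := -β) (Or.inl hTt.ne')
    convert h2 using 1
    ring
  have hJ : ∀ t ∈ Ico t2 T, t ∈ Ioo 0 T := fun t ht => ⟨ht2'.1.trans_le ht.1, ht.2⟩
  have hder : ∀ t ∈ Ico t2 T, HasDerivAt (fun t => eI F c χ t * (T - t) ^ (-β))
      (-dI F c χ t * (T - t) ^ (-β) + eI F c χ t * (β * (T - t) ^ (-β - 1))) t :=
    fun t ht => (der t (hJ t ht)).mul (hpow t ht)
  have hanti : AntitoneOn (fun t => eI F c χ t * (T - t) ^ (-β)) (Ico t2 T) := by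
    apply antitoneOn_of_deriv_nonpos (convex_Ico _ _)
    · intro t ht
      exact (hder t ht).continuousAt.continuousWithinAt
    · intro t ht
      rw [interior_Ico] at ht
      exact (hder t ⟨ht.1.le, ht.2⟩).differentiableAt.differentiableWithinAt
    · intro t ht
      rw [interior_Ico] at ht
      have ht' : t ∈ Ico t2 T := ⟨ht.1.le, ht.2⟩
      rw [(hder t ht').deriv]
      have hTt : 0 < T - t := by have := ht.2; linarith
      have h1 := dbd t (hJ t ht') _ (hYlow t ht')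
      have h2 : (T - t) ^ (-β - 1) = (T - t) ^ (-β) / (T - t) := by
        rw [Real.rpow_sub_one hTt.ne']
      rw [h2]
      have h3 : 0 < (T - t) ^ (-β) := Real.rpow_pos_of_pos hTt _
      have h4 : -dI F c χ t * (T - t) ^ (-β) + eI F c χ t * (β * ((T - t) ^ (-β) / (T - t))) =
          (T - t) ^ (-β) * (δ * (1 / (2 * (T - t))) * eI F c χ t - dI F c χ t) := by
        rw [hβ]
        field_simp
        ring
      rw [h4]
      exact mul_nonpos_of_nonneg_of_nonpos h3.le (by linarith)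
  set K : ℝ := eI F c χ t2 * (T - t2) ^ (-β) with hK
  have hTt2 : 0 < T - t2 := by have := ht2'.2; linarith
  have hK0 : 0 ≤ K := mul_nonneg (e0 t2 ht2') (Real.rpow_nonneg hTt2.le _)
  have hdecay : ∀ t ∈ Ico t2 T, eI F c χ t ≤ K * (T - t) ^ β := by
    intro t ht
    have hTt : 0 < T - t := by have := ht.2; linarith
    have h1 : eI F c χ t * (T - t) ^ (-β) ≤ K := hanti ⟨le_rfl, ht2'.2⟩ ht ht.1
    have h2 : 0 < (T - t) ^ β := Real.rpow_pos_of_pos hTt _
    rw [Real.rpow_neg hTt.le] at h1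
    have h3 := mul_le_mul_of_nonneg_right h1 h2.le
    rwa [mul_assoc, inv_mul_cancel₀ h2.ne', mul_one] at h3
  -- step 3
  set K' : ℝ := K * 2 ^ β + K + 1 with hK'
  have h2β : (0 : ℝ) < 2 ^ β := Real.rpow_pos_of_pos (by norm_num) _
  have hK'0 : 0 < K' := by
    have := mul_nonneg hK0 h2β.le
    rw [hK']
    linarith
  set σ : ℝ := min (min 1 ((T - t2) / 2)) (((1 / 2) ^ 16 / K') ^ (1 / β)) with hσ
  have hσ0 : 0 < σ := by
    refine lt_min (lt_min one_pos (by positivity)) ?_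
    exact Real.rpow_pos_of_pos (by positivity) _
  have hσ1 : σ ≤ 1 := (min_le_left _ _).trans (min_le_left _ _)
  have hσ2 : σ ≤ (T - t2) / 2 := (min_le_left _ _).trans (min_le_right _ _)
  have hσ3 : K' * σ ^ β ≤ (1 / 2) ^ 16 := by
    have h1 : σ ≤ ((1 / 2) ^ 16 / K') ^ (1 / β) := min_le_right _ _
    have h2 := Real.rpow_le_rpow hσ0.le h1 hβ0.le
    rw [← Real.rpow_mul (by positivity), one_div_mul_cancel hβ0.ne', Real.rpow_one] at h2
    rw [le_div_iff₀ hK'0] at h2
    linarith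
  set α : ℝ := β / 16 with hα
  have hα0 : 0 < α := by rw [hα]; positivity
  have hC0 : 0 < K' ^ (1 / 16 : ℝ) := Real.rpow_pos_of_pos hK'0 _
  have hpi := Real.pi_pos
  refine ⟨K' + (1 + 16 * Real.pi) + C' * K' + C' * K' ^ (1 / 16 : ℝ), α, T - σ, by positivity,
    hα0, ⟨by have := ht2'.1; linarith, by linarith⟩, ?_⟩
  intro t ht
  have hTt : 0 < T - t := by have := ht.2; linarith
  have hTσ : T - t ≤ σ := by have := ht.1; linarith
  have htJ : t ∈ Ioo 0 T := ⟨by have := ht2'.1; linarith, ht.2⟩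
  have htt2 : t ∈ Ico t2 T := ⟨by linarith, ht.2⟩
  have hu : T - 2 * (T - t) ∈ Ico t2 T := ⟨by linarith, by linarith⟩
  have hαβ : (T - t) ^ β ≤ (T - t) ^ α :=
    Real.rpow_le_rpow_of_exponent_ge hTt (hTσ.trans hσ1) (by rw [hα]; linarith)
  have hα1 : 0 < (T - t) ^ α := Real.rpow_pos_of_pos hTt _
  have hβ1 : 0 < (T - t) ^ β := Real.rpow_pos_of_pos hTt _
  have hKK : K ≤ K' := by
    have := mul_nonneg hK0 h2β.le
    rw [hK']
    linarith
  have het : eI F c χ t ≤ K' * (T - t) ^ α := by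
    refine (hdecay t htt2).trans ?_
    exact mul_le_mul hKK hαβ hβ1.le hK'0.le
  have heu : eI F c χ (T - 2 * (T - t)) ≤ K' * (T - t) ^ β := by
    have h1 := hdecay _ hu
    have h2 : T - (T - 2 * (T - t)) = 2 * (T - t) := by ring
    rw [h2, Real.mul_rpow (by norm_num) hTt.le, ← mul_assoc] at h1
    refine h1.trans (mul_le_mul_of_nonneg_right ?_ hβ1.le)
    rw [hK']
    linarith
  have he1' : eI F c χ t ≤ 1 := he1 t ⟨by
    have h1 : s1 ≤ ta := le_max_right _ _
    have h2 : ta ≤ tb := le_max_left _ _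
    have := htt2.1
    linarith, ht.2⟩
  have hW : wI F c χ t ≤ 1 + 16 * Real.pi := by
    have := hD.gb t htJ
    linarith
  have hCx : 0 < C' * K' := mul_pos hC' hK'0
  have hCy : 0 < C' * K' ^ (1 / 16 : ℝ) := mul_pos hC' hC0
  refine ⟨?_, ?_, ?_, ?_⟩
  · refine het.trans (mul_le_mul_of_nonneg_right ?_ hα1.le)
    linarith
  · refine ((harea t htJ).2).trans (mul_le_mul_of_nonneg_right ?_ hTt.le)
    linarith
  · linarith
  · intro q
    have hta3 : ta ≤ T - 2 * (T - t) := (le_max_left _ _).trans (htb2.trans hu.1)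
    obtain ⟨h1, h2⟩ := hTY t ht.2 hta3 q
    constructor
    · refine h1.trans ?_
      have h3 := mul_le_mul_of_nonneg_left (heu.trans
        (mul_le_mul_of_nonneg_left hαβ hK'0.le)) hC'.le
      refine h3.trans ?_
      rw [← mul_assoc]
      refine mul_le_mul_of_nonneg_right ?_ hα1.le
      linarith
    · set η : ℝ := (K' * (T - t) ^ β) ^ (1 / 16 : ℝ) with hη
      have hη0 : 0 < η := Real.rpow_pos_of_pos (by positivity) _
      have hη16 : η ^ 16 = K' * (T - t) ^ β := by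
        rw [hη, ← Real.rpow_natCast, ← Real.rpow_mul (by positivity)]
        norm_num
      have hηh : η ≤ 1 / 2 := by
        have h3 : (T - t) ^ β ≤ σ ^ β := Real.rpow_le_rpow hTt.le hTσ hβ0.le
        have h4 : η ^ 16 ≤ (1 / 2) ^ 16 := by
          rw [hη16]
          exact (mul_le_mul_of_nonneg_left h3 hK'0.le).trans hσ3
        exact le_of_pow_le_pow_left₀ (by norm_num) (by norm_num) h4
      have h5 := h2 η hη0 hηh (by rw [hη16]; exact heu)
      refine h5.trans ?_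
      have h6 : η = K' ^ (1 / 16 : ℝ) * (T - t) ^ α := by
        rw [hη, Real.mul_rpow hK'0.le hβ1.le, ← Real.rpow_mul hTt.le, hα]
        congr 2
        ring
      rw [h6, ← mul_assoc]
      refine mul_le_mul_of_nonneg_right ?_ hα1.le
      linarith

end Helper22.MS
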